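import Pool.Agent.H961Z.KZ.Final

set_option autoImplicit false

namespace Pool.Agent.Results.MP_d82055_ag.AEqualChar

open CategoryTheory AlgebraicGeometry Pool.Agent.H961Z.KZ

/-- Let `k` be a field of odd characteristic `p` containing a fourth root of `-1` and let
`A = k[[t]]`. There is a smooth projective `A`-scheme `X` of relative dimension one with
geometrically integral fibres such that, for any identification `β` of a group `CH` with
`H¹(X, 𝒪_X^×)`, no filtration of `CH` satisfies the two conditions of the conjecture for the
restriction maps to the thickenings `X_n = X ×_A A/(t^n)`. -/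
theorem result (p : ℕ) [Fact p.Prime] (hp : p ≠ 2) (k : Type) [Field k] [CharP k p]
    (hη : ∃ η : k, η ^ 4 = -1) :
    ∃ (X : Scheme.{0}) (s : X ⟶ Spec (.of (PowerSeries k))),
      SmoothOfRelativeDimension 1 s ∧ IsProjective s ∧ GeometricallyIntegral s ∧
      ∀ (CH : Type) [AddCommGroup CH] (β : CH ≃+ H1 (unitsSheaf X)) (F : ℕ → AddSubgroup CH),
        ¬ IsKerzFiltration p (fun n => (res s PowerSeries.X n).comp β.toAddMonoidHom) F :=
  main p hp k hη

end Pool.Agent.Results.MP_d82055_ag.AEqualChar
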